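import Pool.Agent.H854R3.CR.Stmts
import Pool.Agent.H854R3.NE.Dens3

/-! Task Rep: a left ideal with a multilinear identity gives a representation by matrices over a
field. -/

set_option autoImplicit false

namespace Pool.Agent.H493R3.CR

open Pool.Agent.H854R3.NE Pool.Agent.H854R3.CR

theorem identity_ext_on {Q : Type} [Ring Q] {m : ℕ} (nn : Equiv.Perm (Fin m) → ℤ) {C : Type}
    [Ring C] (J : Set C)
    (ρ : C →+* Q) (hid : ∀ a : Fin m → C, (∀ i, a i ∈ J) →
      ∑ π, nn π • (List.ofFn fun k => a (π k)).prod = 0)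
    (K : Set Q) (hK : ∀ κ ∈ K, ∀ κ' ∈ K, κ * κ' = κ' * κ) (hKρ : ∀ κ ∈ K, ∀ r, κ * ρ r = ρ r * κ)
    (t : Fin m → Q)
    (ht : ∀ j, t j ∈ AddSubgroup.closure {z | ∃ r ∈ J, ∃ κ ∈ K, z = ρ r * κ}) :
    ∑ π, nn π • (List.ofFn fun k => t (π k)).prod = 0 := by
  rw [← mlm_apply]
  refine multilin_closure _ _ ?_ t ht
  intro X hX
  choose r hrJ κ hκ hX using hX
  rw [mlm_apply]
  have h1 : ∀ π : Equiv.Perm (Fin m), (List.ofFn fun k => X (π k)).prod =
      ρ (List.ofFn fun k => r (π k)).prod * (List.ofFn κ).prod := by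
    intro π
    have e1 : (List.ofFn fun k => X (π k)) = (List.ofFn π).map fun i => ρ (r i) * κ i := by
      rw [List.map_ofFn]
      congr 1
      funext k
      exact hX (π k)
    rw [e1, prod_split (fun i => ρ (r i)) κ (fun i j => hKρ _ (hκ i) _)]
    congr 1
    · rw [map_list_prod, List.map_ofFn, List.map_ofFn]
      rfl
    · have e2 : ((List.ofFn π).map κ).Perm (List.ofFn κ) := by
        rw [List.map_ofFn]
        exact Equiv.Perm.ofFn_comp_perm π κ
      apply List.Perm.prod_eq' e2
      rw [List.map_ofFn, List.pairwise_ofFn]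
      intro i j _
      exact hK _ (hκ _) _ (hκ _)
  simp only [h1]
  have h2 := congrArg (fun z => ρ z * (List.ofFn κ).prod) (hid r hrJ)
  simp only [map_sum, map_zsmul, Finset.sum_mul, zero_mul, map_zero] at h2
  rw [← h2]
  apply Finset.sum_congr rfl
  intro π _
  rw [smul_mul_assoc]

theorem finite_range_of_identity {R M : Type} [Ring R] [AddCommGroup M] [Module R M]
    [IsSimpleModule R M] [DecidableEq (Module.End R M)] {m : ℕ}
    (nn : Equiv.Perm (Fin m) → ℤ) (π0 : Equiv.Perm (Fin m)) (h0 : nn π0 = 1) (J : Set R)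
    (hJ : ∀ r x : R, x ∈ J → r * x ∈ J)
    (hid : ∀ t : Fin m → R, (∀ i, t i ∈ J) →
      ∑ π, nn π • (List.ofFn fun k => t (π k)).prod = 0) (a : R) (ha : a ∈ J) :
    Module.Finite (Module.End R M)
      (LinearMap.range (Module.toModuleEnd (Module.End R M) M a)) := by
  classical
  set W := LinearMap.range (Module.toModuleEnd (Module.End R M) M a) with hW
  by_contra hinf
  have h1 : ((m + 1 : ℕ) : Cardinal) ≤ Module.rank (Module.End R M) W := by
    apply le_trans (Cardinal.natCast_lt_aleph0).le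
    rw [← not_lt]
    intro h
    exact hinf (Module.rank_lt_aleph0_iff.1 h)
  obtain ⟨s, hs, hli⟩ := exists_finset_linearIndependent_of_le_rank h1
  let e : Fin (m + 1) ≃ s := (Fintype.equivFinOfCardEq (by simpa using hs)).symm
  let w : Fin (m + 1) → W := fun i => (e i : W)
  have hw0 : LinearIndependent (Module.End R M) w := by
    have h2 : LinearIndependent (Module.End R M) (fun i : s => (i : W)) := hli
    exact h2.comp e e.injective
  have hw : LinearIndependent (Module.End R M) (fun i => (w i : M)) :=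
    hw0.map' W.subtype (Submodule.ker_subtype W)
  have hv : ∀ i, ∃ v : M, a • v = (w i : M) := fun i => (w i).2
  choose v hv using hv
  have hf : ∀ k : Fin m, ∃ f : M →ₗ[Module.End R M] M,
      ∀ j, f (w j : M) = if j = k.succ then v k.castSucc else 0 := by
    intro k
    obtain ⟨g, hg⟩ := LinearMap.exists_extend ((Module.Basis.span hw).constr ℤ
      (fun j => if j = k.succ then v k.castSucc else 0))
    refine ⟨g, fun j => ?_⟩
    have h3 := congrArg (fun h => h (Module.Basis.span hw j)) hg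
    simp only [LinearMap.comp_apply, Module.Basis.constr_basis] at h3
    rw [← h3]
    congr 1
    simp [Module.Basis.span_apply]
  choose f hf using hf
  have hr : ∀ k : Fin m, ∃ r : R, ∀ j, (r * a) • v j = if j = k.succ then v k.castSucc else 0 := by
    intro k
    obtain ⟨r, hr⟩ := jacobson_density (f k) (Finset.univ.image fun i => (w i : M))
    refine ⟨r, fun j => ?_⟩
    rw [mul_smul, hv, ← hr (w j : M) (Finset.mem_image_of_mem (fun i => (w i : M))
      (Finset.mem_univ j)), hf]
  choose r hr using hr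
  have h2 := hid (fun j => r (π0⁻¹ j) * a) (fun j => hJ _ _ ha)
  have h3 := congrArg (fun z => z • v (Fin.last m)) h2
  simp only [Finset.sum_smul, zero_smul] at h3
  have h4 : ∀ π : Equiv.Perm (Fin m),
      (nn π • (List.ofFn fun k => r (π0⁻¹ (π k)) * a).prod) • v (Fin.last m) =
      if π = π0 then v 0 else 0 := by
    intro π
    rw [smul_assoc]
    have h5 := chain_prod v (fun k => r k * a) hr (π0⁻¹ * π)
    have h6 : (List.ofFn fun k => r (π0⁻¹ (π k)) * a).prod • v (Fin.last m) =
      if π0⁻¹ * π = 1 then v 0 else 0 := h5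
    rw [h6]
    by_cases h7 : π = π0
    · rw [if_pos h7, if_pos (by rw [h7, inv_mul_cancel]), h7, h0, one_smul]
    · rw [if_neg h7, if_neg, smul_zero]
      intro h8
      exact h7 (inv_mul_eq_one.1 h8).symm
  rw [Finset.sum_congr rfl (fun π _ => h4 π), Finset.sum_ite_eq' Finset.univ π0,
    if_pos (Finset.mem_univ _)] at h3
  apply hw.ne_zero 0
  rw [← hv 0, h3, smul_zero]

theorem mul_inr_eq {R : Type} [NonUnitalRing R] (r : Unitization ℤ R) (b : R) :
    r * (b : Unitization ℤ R) = ((r.fst • b + r.snd * b : R) : Unitization ℤ R) := by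
  apply Unitization.ext
  · rw [Unitization.fst_mul, Unitization.fst_inr, Unitization.fst_inr, mul_zero]
  · rw [Unitization.snd_mul, Unitization.fst_inr, Unitization.snd_inr, Unitization.snd_inr]
    simp

theorem finite_step {A T M : Type} [Ring A] [Ring T] [AddCommGroup M] [Module A M] [Module T M]
    [IsSimpleModule A M] [IsSimpleModule T M] [DecidableEq (Module.End T M)]
    (g : A →+* T) (hg : ∀ (r : A) (x : M), g r • x = r • x)
    (hfinD : Module.Finite (Module.End A M) M) (b : A) (v0 : M) (hv0 : b • v0 ≠ 0)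
    (hW : Module.Finite (Module.End T M)
      (LinearMap.range (Module.toModuleEnd (Module.End T M) M (g b)))) :
    Module.Finite (Module.End T M) M := by
  let ι : Module.End T M →+* Module.End A M :=
    { toFun := fun φ =>
        { toFun := φ
          map_add' := φ.map_add
          map_smul' := fun r x => by
            simp only [RingHom.id_apply]
            rw [← hg r x, φ.map_smul, hg] }
      map_one' := rfl
      map_mul' := fun _ _ => rfl
      map_zero' := rfl
      map_add' := fun _ _ => rfl }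
  let iM : Module (Module.End T M) (Module.End A M) := Module.compHom _ ι
  have iST : IsScalarTower (Module.End T M) (Module.End A M) M := ⟨fun _ _ _ => rfl⟩
  let evW : Module.End A M →ₗ[Module.End T M]
      LinearMap.range (Module.toModuleEnd (Module.End T M) M (g b)) :=
    { toFun := fun d => ⟨d (b • v0), d v0, by
        change g b • d v0 = _
        rw [hg, d.map_smul]⟩
      map_add' := fun _ _ => rfl
      map_smul' := fun _ _ => rfl }
  have hinj : Function.Injective evW := by
    rw [injective_iff_map_eq_zero]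
    intro d hd
    have h1 : d (b • v0) = 0 := congrArg Subtype.val hd
    have h2 : b • v0 ∈ LinearMap.ker d := h1
    rcases eq_bot_or_eq_top (LinearMap.ker d) with h3 | h3
    · rw [h3, Submodule.mem_bot] at h2
      exact absurd h2 hv0
    · exact LinearMap.ker_eq_top.1 h3
  have hfin1 : Module.Finite (Module.End T M) (Module.End A M) :=
    Module.Finite.of_injective evW hinj
  exact Module.Finite.trans (Module.End A M) M

theorem rep_step {A T M : Type} [Ring A] [Ring T] [AddCommGroup M] [Module A M] [Module T M]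
    [IsSimpleModule A M] [IsSimpleModule T M] [DecidableEq (Module.End T M)]
    (hcomm : ∀ φ ψ : Module.End T M, φ * ψ = ψ * φ)
    (g : A →+* T) (hg : ∀ (r : A) (x : M), g r • x = r • x)
    (hfinD : Module.Finite (Module.End A M) M) (b : A) (v0 : M) (hv0 : b • v0 ≠ 0)
    (hW : Module.Finite (Module.End T M)
      (LinearMap.range (Module.toModuleEnd (Module.End T M) M (g b)))) :
    ∃ (K : Type) (_ : Field K) (s : ℕ) (Θ : A →+* Matrix (Fin s) (Fin s) K), Θ b ≠ 0 := by
  have hfin2 := finite_step g hg hfinD b v0 hv0 hW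
  let iD : DivisionRing (Module.End T M) := Module.End.instDivisionRing
  let iF : Field (Module.End T M) := { iD with mul_comm := hcomm }
  let ψ : A →+* Module.End (Module.End T M) M := (Module.toModuleEnd (Module.End T M) M).comp g
  let bb := Module.finBasis (Module.End T M) M
  let ee := LinearMap.toMatrixAlgEquiv bb
  refine ⟨Module.End T M, iF, _, ee.toRingEquiv.toRingHom.comp ψ, ?_⟩
  intro hk
  apply hv0
  have h1 : ee (ψ b) = 0 := hk
  have h2 : ψ b = 0 := by
    apply ee.injective
    rw [h1, map_zero]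
  rw [← hg]
  exact congrArg (fun f : Module.End (Module.End T M) M => f v0) h2

theorem rep_general {A M : Type} [Ring A] [AddCommGroup M] [Module A M] [hsimp : IsSimpleModule A M]
    (hfinD : Module.Finite (Module.End A M) M) (J : Set A) (hAJ : ∀ r : A, ∀ x ∈ J, r * x ∈ J)
    {m : ℕ} (nn : Equiv.Perm (Fin m) → ℤ) (π0 : Equiv.Perm (Fin m)) (h0 : nn π0 = 1)
    (hid : ∀ a : Fin m → A, (∀ i, a i ∈ J) →
      ∑ π, nn π • (List.ofFn fun k => a (π k)).prod = 0)
    (b : A) (hb : b ∈ J) (v0 : M) (hv0 : b • v0 ≠ 0) :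
    ∃ (K : Type) (_ : Field K) (s : ℕ) (Θ : A →+* Matrix (Fin s) (Fin s) K), Θ b ≠ 0 := by
  classical
  let ρ : A →+* AddMonoid.End M := Module.toAddMonoidEnd A M
  obtain ⟨X', hX1, hX2, hX3⟩ := exists_comm_max (Set.range ρ)
  have hone : (1 : AddMonoid.End M) ∈ X' :=
    hX3 1 (fun s _ => by rw [one_mul, mul_one]) (fun s _ => by rw [one_mul, mul_one])
  have hmul : ∀ a ∈ X', ∀ b ∈ X', a * b ∈ X' := by
    intro a ha b hb
    apply hX3
    · intro s hs
      rw [mul_assoc, hX1 b hb s hs, ← mul_assoc, hX1 a ha s hs, mul_assoc]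
    · intro s hs
      rw [mul_assoc, hX2 b hb s hs, ← mul_assoc, hX2 a ha s hs, mul_assoc]
  let G : Submonoid (AddMonoid.End M) :=
    { carrier := {z | ∃ r : A, ∃ κ ∈ X', z = ρ r * κ}
      mul_mem' := by
        rintro _ _ ⟨r, κ, hκ, rfl⟩ ⟨r', κ', hκ', rfl⟩
        refine ⟨r * r', κ * κ', hmul _ hκ _ hκ', ?_⟩
        have e := hX1 κ hκ (ρ r') ⟨r', rfl⟩
        rw [map_mul, mul_assoc, ← mul_assoc κ, e]
        simp only [mul_assoc]
      one_mem' := ⟨1, 1, hone, by rw [map_one, one_mul]⟩ }
  let T : Subring (AddMonoid.End M) := Subring.closure (G : Set (AddMonoid.End M))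
  have hT : ∀ t ∈ T, t ∈ AddSubgroup.closure {z | ∃ r : A, ∃ κ ∈ X', z = ρ r * κ} := by
    intro t ht
    have h1 := Subring.mem_closure_iff.1 ht
    rw [Submonoid.closure_eq] at h1
    exact h1
  have hρT : ∀ r : A, ρ r ∈ T := fun r =>
    Subring.subset_closure ⟨r, 1, hone, by rw [mul_one]⟩
  have hXT : ∀ κ ∈ X', κ ∈ T := fun κ hκ =>
    Subring.subset_closure ⟨1, κ, hκ, by rw [map_one, one_mul]⟩
  have hsT : IsSimpleModule T M := by
    rw [isSimpleModule_iff_toSpanSingleton_surjective]
    obtain ⟨hn, hs⟩ := isSimpleModule_iff_toSpanSingleton_surjective.1 hsimp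
    refine ⟨hn, fun x hx y => ?_⟩
    obtain ⟨q, hq⟩ := hs x hx y
    exact ⟨⟨ρ q, hρT q⟩, hq⟩
  let toE : Module.End T M → AddMonoid.End M := fun φ => φ.toAddMonoidHom
  have hend : ∀ φ : Module.End T M, toE φ ∈ X' := by
    intro φ
    have h1 : ∀ t ∈ T, toE φ * t = t * toE φ := by
      intro t ht
      ext v
      exact φ.map_smul (⟨t, ht⟩ : T) v
    apply hX3
    · rintro _ ⟨q, rfl⟩
      exact h1 _ (hρT q)
    · intro ψ hψ
      exact h1 _ (hXT ψ hψ)
  have hcomm : ∀ φ ψ : Module.End T M, φ * ψ = ψ * φ := by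
    intro φ ψ
    have h1 := hX2 _ (hend φ) _ (hend ψ)
    ext v
    exact congrArg (fun f : AddMonoid.End M => f v) h1
  have hρv : ∀ (r : A) (v : M), ρ r v = r • v := fun _ _ => rfl
  clear_value ρ T
  -- the left ideal generated by `J`
  have hclos : ∀ t' ∈ AddSubgroup.closure {z | ∃ r : A, ∃ κ ∈ X', z = ρ r * κ},
      ∀ x' ∈ AddSubgroup.closure {z | ∃ r ∈ J, ∃ κ ∈ X', z = ρ r * κ},
      t' * x' ∈ AddSubgroup.closure {z | ∃ r ∈ J, ∃ κ ∈ X', z = ρ r * κ} := by
    intro t' ht x' hx'
    induction ht using AddSubgroup.closure_induction with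
    | mem y hy =>
      obtain ⟨r, κ, hκ, rfl⟩ := hy
      induction hx' using AddSubgroup.closure_induction with
      | mem z hz =>
        obtain ⟨r', hr', κ', hκ', rfl⟩ := hz
        apply AddSubgroup.subset_closure
        refine ⟨r * r', hAJ _ _ hr', κ * κ', hmul _ hκ _ hκ', ?_⟩
        have e := hX1 κ hκ (ρ r') ⟨r', rfl⟩
        rw [map_mul, mul_assoc, ← mul_assoc κ, e]
        simp only [mul_assoc]
      | zero => rw [mul_zero]; exact zero_mem _
      | add z1 z2 _ _ h1 h2 => rw [mul_add]; exact add_mem h1 h2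
      | neg z1 _ h1 => rw [mul_neg]; exact neg_mem h1
    | zero => rw [zero_mul]; exact zero_mem _
    | add y1 y2 _ _ h1 h2 => rw [add_mul]; exact add_mem h1 h2
    | neg y1 _ h1 => rw [neg_mul]; exact neg_mem h1
  have hidT : ∀ t : Fin m → T,
      (∀ i, (t i : AddMonoid.End M) ∈
        AddSubgroup.closure {z | ∃ r ∈ J, ∃ κ ∈ X', z = ρ r * κ}) →
      ∑ π, nn π • (List.ofFn fun k => t (π k)).prod = 0 := by
    intro t ht
    have h1 := identity_ext_on nn J ρ hid X' hX2
      (fun κ hκ r => hX1 κ hκ _ ⟨r, rfl⟩) (fun j => (t j : AddMonoid.End M)) ht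
    apply Subtype.val_injective
    rw [AddSubmonoidClass.coe_finsetSum]
    change _ = (0 : AddMonoid.End M)
    rw [← h1]
    apply Finset.sum_congr rfl
    intro π _
    have h2 : (((List.ofFn fun k => t (π k)).prod : T) : AddMonoid.End M) =
        (List.ofFn fun k => (t (π k) : AddMonoid.End M)).prod := by
      have := map_list_prod T.subtype (List.ofFn fun k => t (π k))
      rw [List.map_ofFn] at this
      exact this
    rw [← h2]
    rfl
  have hbT : (⟨ρ b, hρT b⟩ : T) ∈ {t : T | (t : AddMonoid.End M) ∈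
      AddSubgroup.closure {z | ∃ r ∈ J, ∃ κ ∈ X', z = ρ r * κ}} := by
    apply AddSubgroup.subset_closure
    exact ⟨b, hb, 1, hone, by rw [mul_one]⟩
  have hW := finite_range_of_identity (M := M) nn π0 h0
    {t : T | (t : AddMonoid.End M) ∈
      AddSubgroup.closure {z | ∃ r ∈ J, ∃ κ ∈ X', z = ρ r * κ}}
    (fun t x hx => hclos _ (hT _ t.2) _ hx) hidT _ hbT
  exact rep_step hcomm (ρ.codRestrict T hρT) hρv hfinD b v0 hv0 hW

theorem taskRep : TaskRep := by
  intro R M _ _ _ hFS hfinD B hB hBne hPI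
  obtain ⟨hsimp, hfaith⟩ := hFS
  obtain ⟨m, nn, π0, h0, hid⟩ := hPI
  obtain ⟨b0, hb0B, hb0⟩ : ∃ b ∈ B, b ≠ 0 := by
    by_contra hcon
    apply hBne
    rw [eq_bot_iff]
    intro x hx
    rw [AddSubgroup.mem_bot]
    by_contra h
    exact hcon ⟨x, hx, h⟩
  obtain ⟨v0, hv0⟩ := hfaith b0 hb0
  have hAJ : ∀ r : Unitization ℤ R,
      ∀ x ∈ {x : Unitization ℤ R | ∃ b ∈ B, x = (b : Unitization ℤ R)},
      r * x ∈ {x : Unitization ℤ R | ∃ b ∈ B, x = (b : Unitization ℤ R)} := by
    rintro r _ ⟨b, hb, rfl⟩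
    refine ⟨r.fst • b + r.snd * b, ?_, ?_⟩
    · exact add_mem (B.zsmul_mem hb _) (hB _ _ hb)
    · exact mul_inr_eq r b
  obtain ⟨K, iK, s, Θ, hΘ⟩ := rep_general hfinD _ hAJ nn π0 h0 hid (b0 : Unitization ℤ R)
    ⟨b0, hb0B, rfl⟩ v0 hv0
  refine ⟨K, iK, s,
    { toFun := fun r => Θ (r : Unitization ℤ R)
      map_mul' := fun x y => by rw [Unitization.inr_mul, map_mul]
      map_zero' := by rw [Unitization.inr_zero, map_zero]
      map_add' := fun x y => by rw [Unitization.inr_add, map_add] }, b0, hΘ⟩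


end Pool.Agent.H493R3.CR
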